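import Pool.Agent.Lib.MP_4fbe7c_an.WH.Iface
import Pool.Agent.Lib.MP_4fbe7c_an.FC.H82.Yder
import Pool.Agent.Lib.MP_4fbe7c_an.FC.H82.Yine

/-!
Module YIZ (helper16): the differential inequality for `yy` with second derivatives.
Adapted from `FC/H82/Yine.lean` (helper82).
-/

set_option autoImplicit false

open Set Filter Topology MeasureTheory intervalIntegral
open scoped Interval

namespace Pool.Agent.Lib.MP_4fbe7c_an.WH.H16

open Pool.Agent.Lib.MP_4fbe7c_an.SD Pool.Agent.Lib.MP_4fbe7c_an.FC Pool.Agent.Lib.MP_4fbe7c_an.WH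
open Pool.Agent.Lib.MP_4fbe7c_an.FC.H82

theorem yiz_aux (hy : YDerStatement) : YIzStatement := by
  intro L M m N d u v w i hc hp t t0
  have hL := hc.hL
  have hS := hc.sol
  have hdi := hc.hd i
  have cu : ContinuousOn (fun p : ℝ × ℝ => u i p.1 p.2) (Ioi 0 ×ˢ Icc 0 L) := hS.cuIoi_log i
  have hne : ∀ p ∈ (Ioi (0 : ℝ) ×ˢ Icc (0 : ℝ) L), u i p.1 p.2 ≠ 0 :=
    fun p hp' => (hp p.1 hp'.1 p.2 hp'.2).ne'
  have cR : ContinuousOn (fun p : ℝ × ℝ => m p.2 - ∑ j, u j p.1 p.2) (Ioi 0 ×ˢ Icc 0 L) :=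
    (hS.cont_rate_log hc.hm).mono (prod_mono Ioi_subset_Ici_self subset_rfl)
  have ch : ContinuousOn (fun p : ℝ × ℝ => Real.log (u i p.1 p.2)) (Ioi 0 ×ˢ Icc 0 L) :=
    cu.log hne
  have ch1 : ContinuousOn (fun p : ℝ × ℝ => v i p.1 p.2 / u i p.1 p.2) (Ioi 0 ×ˢ Icc 0 L) :=
    (hS.cv i).div cu hne
  have ch2 : ContinuousOn (fun p : ℝ × ℝ => w i p.1 p.2 / u i p.1 p.2 -
      (v i p.1 p.2 / u i p.1 p.2) ^ 2) (Ioi 0 ×ˢ Icc 0 L) :=
    ((hS.cw i).div cu hne).sub (ch1.pow 2)
  have cht : ContinuousOn (fun p : ℝ × ℝ => (d i * w i p.1 p.2 +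
      u i p.1 p.2 * (m p.2 - ∑ j, u j p.1 p.2)) / u i p.1 p.2) (Ioi 0 ×ˢ Icc 0 L) :=
    ((continuousOn_const.mul (hS.cw i)).add (cu.mul cR)).div cu hne
  have hd1 : ∀ s, 0 < s → DerivOn L (fun x => Real.log (u i s x))
      (fun x => v i s x / u i s x) := fun s hs x hx =>
    (hS.dx i s hs x hx).log (hp s hs x hx).ne'
  have hd2 : ∀ s, 0 < s → DerivOn L (fun x => v i s x / u i s x)
      (fun x => w i s x / u i s x - (v i s x / u i s x) ^ 2) := fun s hs x hx => by
    have e := (hS.dxx i s hs x hx).div (hS.dx i s hs x hx) (hp s hs x hx).ne'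
    have hu := (hp s hs x hx).ne'
    have e2 : (w i s x * u i s x - v i s x * v i s x) / u i s x ^ 2 =
        w i s x / u i s x - (v i s x / u i s x) ^ 2 := by
      field_simp
    rw [e2] at e
    exact e
  have hder := hy L (fun s x => Real.log (u i s x)) (fun s x => v i s x / u i s x)
    (fun s x => w i s x / u i s x - (v i s x / u i s x) ^ 2)
    (fun s x => (d i * w i s x + u i s x * (m x - ∑ j, u j s x)) / u i s x)
    hL ch ch1 ch2 cht hd1 hd2
    (fun s hs => ⟨by simp only [hS.b0 i s hs, zero_div], by simp only [hS.bL i s hs, zero_div]⟩)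
    (fun s hs x hx => (hS.dt i s hs x hx).log (hp s hs x hx).ne') t t0
  -- the functions at time `t`
  have c1 : ContinuousOn (fun x => v i t x / u i t x) (Icc 0 L) :=
    slice (g := fun t x => v i t x / u i t x) ch1 (mem_Ioi.2 t0)
  have c2 : ContinuousOn (fun x => w i t x / u i t x - (v i t x / u i t x) ^ 2) (Icc 0 L) :=
    slice (g := fun t x => w i t x / u i t x - (v i t x / u i t x) ^ 2) ch2 (mem_Ioi.2 t0)
  have c3 : ContinuousOn (fun x => (d i * w i t x + u i t x * (m x - ∑ j, u j t x)) / u i t x)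
      (Icc 0 L) :=
    slice (g := fun t x => (d i * w i t x + u i t x * (m x - ∑ j, u j t x)) / u i t x) cht
      (mem_Ioi.2 t0)
  have c4 : ContinuousOn (fun x => m x - ∑ j, u j t x) (Icc 0 L) :=
    slice (g := fun t x => m x - ∑ j, u j t x) cR (mem_Ioi.2 t0)
  -- the cubic term
  have hcub : ∫ x in (0)..L, (v i t x / u i t x) ^ 2 *
      (w i t x / u i t x - (v i t x / u i t x) ^ 2) = 0 := by
    have hd3 : DerivOn L (fun x => (v i t x / u i t x) ^ 3 / 3) (fun x =>
        (v i t x / u i t x) ^ 2 * (w i t x / u i t x - (v i t x / u i t x) ^ 2)) := fun x hx => by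
      have e := ((hd2 t t0 x hx).pow 3).div_const 3
      have e' : (v i t x / u i t x) ^ 2 * (w i t x / u i t x - (v i t x / u i t x) ^ 2) =
          ((3 : ℕ) : ℝ) * (v i t x / u i t x) ^ (3 - 1) *
            (w i t x / u i t x - (v i t x / u i t x) ^ 2) / 3 := by
        norm_num
        ring
      show HasDerivWithinAt (fun x => (v i t x / u i t x) ^ 3 / 3)
        ((v i t x / u i t x) ^ 2 * (w i t x / u i t x - (v i t x / u i t x) ^ 2)) _ _
      rw [e']
      exact e
    rw [integral_deriv hL hd3 ((c1.pow 2).mul c2), hS.b0 i t t0, hS.bL i t t0]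
    simp
  -- integration of the pointwise inequality
  have i2 : IntervalIntegrable (fun x => (w i t x / u i t x - (v i t x / u i t x) ^ 2) ^ 2)
      volume 0 L := (c2.pow 2).intervalIntegrable_of_Icc hL.le
  have iR : IntervalIntegrable (fun x => (m x - ∑ j, u j t x) ^ 2) volume 0 L :=
    (c4.pow 2).intervalIntegrable_of_Icc hL.le
  have i12 : IntervalIntegrable (fun x => (v i t x / u i t x) ^ 2 *
      (w i t x / u i t x - (v i t x / u i t x) ^ 2)) volume 0 L :=
    ((c1.pow 2).mul c2).intervalIntegrable_of_Icc hL.le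
  have hmain : -(2 * ∫ x in (0)..L, (w i t x / u i t x - (v i t x / u i t x) ^ 2) *
      ((d i * w i t x + u i t x * (m x - ∑ j, u j t x)) / u i t x)) ≤
      -(d i * ∫ x in (0)..L, (w i t x / u i t x - (v i t x / u i t x) ^ 2) ^ 2) +
        (∫ x in (0)..L, (m x - ∑ j, u j t x) ^ 2) / d i := by
    have e1 : -(2 * ∫ x in (0)..L, (w i t x / u i t x - (v i t x / u i t x) ^ 2) *
        ((d i * w i t x + u i t x * (m x - ∑ j, u j t x)) / u i t x)) =
        ∫ x in (0)..L, -2 * ((w i t x / u i t x - (v i t x / u i t x) ^ 2) *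
        ((d i * w i t x + u i t x * (m x - ∑ j, u j t x)) / u i t x)) := by
      rw [intervalIntegral.integral_const_mul]
      ring
    have e2 : -(d i * ∫ x in (0)..L, (w i t x / u i t x - (v i t x / u i t x) ^ 2) ^ 2) +
        (∫ x in (0)..L, (m x - ∑ j, u j t x) ^ 2) / d i =
        ∫ x in (0)..L, ((-d i) * (w i t x / u i t x - (v i t x / u i t x) ^ 2) ^ 2 +
          (1 / d i) * (m x - ∑ j, u j t x) ^ 2 + (-2 * d i) * ((v i t x / u i t x) ^ 2 *
            (w i t x / u i t x - (v i t x / u i t x) ^ 2))) := by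
      rw [intervalIntegral.integral_add ((i2.const_mul _).add (iR.const_mul _))
        (i12.const_mul _), intervalIntegral.integral_add (i2.const_mul _) (iR.const_mul _),
        intervalIntegral.integral_const_mul, intervalIntegral.integral_const_mul,
        intervalIntegral.integral_const_mul, hcub]
      ring
    rw [e1, e2]
    refine intervalIntegral.integral_mono_on hL.le ?_ ?_ ?_
    · exact (((c2.mul c3).intervalIntegrable_of_Icc hL.le)).const_mul _
    · exact ((i2.const_mul _).add (iR.const_mul _)).add (i12.const_mul _)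
    · intro x hx
      have hu := (hp t t0 x hx).ne'
      obtain ⟨a, ha⟩ : ∃ a, a = w i t x / u i t x - (v i t x / u i t x) ^ 2 := ⟨_, rfl⟩
      obtain ⟨b, hb⟩ : ∃ b, b = v i t x / u i t x := ⟨_, rfl⟩
      obtain ⟨r, hr⟩ : ∃ r, r = m x - ∑ j, u j t x := ⟨_, rfl⟩
      have e3 : (d i * w i t x + u i t x * (m x - ∑ j, u j t x)) / u i t x =
          d i * (a + b ^ 2) + r := by
        rw [ha, hb, hr]
        field_simp
        ring
      rw [e3, ← ha, ← hb, ← hr]
      have e4 : 0 ≤ (d i * a + r) ^ 2 / d i := by positivity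
      have e5 : (d i * a + r) ^ 2 / d i = d i * a ^ 2 + 2 * a * r + 1 / d i * r ^ 2 := by
        field_simp
        ring
      rw [e5] at e4
      nlinarith [e4]
  have h0 : (fun x => v i t x / u i t x) 0 = 0 := by
    simp only [hS.b0 i t t0, zero_div]
  have hpt : ∀ x ∈ Icc 0 L, (v i t x / u i t x) ^ 2 ≤
      L * ∫ x in (0)..L, (w i t x / u i t x - (v i t x / u i t x) ^ 2) ^ 2 := fun x hx =>
    sq_le_of_zero hL (hd2 t t0) c2 h0 hx
  have hyy : yy L u v i t ≤ L ^ 2 *
      ∫ x in (0)..L, (w i t x / u i t x - (v i t x / u i t x) ^ 2) ^ 2 := by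
    have i1 : IntervalIntegrable (fun x => (v i t x / u i t x) ^ 2) volume 0 L :=
      (c1.pow 2).intervalIntegrable_of_Icc hL.le
    have e2 := intervalIntegral.integral_mono_on hL.le i1 intervalIntegrable_const hpt
    rw [intervalIntegral.integral_const, sub_zero, smul_eq_mul] at e2
    unfold yy
    linarith
  exact ⟨⟨_, hder, hmain⟩, hyy, hpt⟩

theorem yiz : YIzStatement := yiz_aux yder

end Pool.Agent.Lib.MP_4fbe7c_an.WH.H16
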